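import Mathlib
import Pool.Agent.H60.Multi

namespace Pool.Agent.Results.MP_155ab0_nt.LimitZero

open Filter Topology Pool.Agent.H60.Multi

theorem result : Tendsto (fun n : ℕ => Real.log (M n) / √(n : ℝ)) atTop (𝓝 0) := by
  rw [Metric.tendsto_atTop]
  intro ε hε
  obtain ⟨N, hN⟩ := M_le_exp (ε / 2) (by linarith)
  refine ⟨max N 1, fun n hn => ?_⟩
  have hn1 : N ≤ n := le_trans (le_max_left _ _) hn
  have hn2 : 1 ≤ n := le_trans (le_max_right _ _) hn
  have hs : 0 < √(n : ℝ) := Real.sqrt_pos.2 (by exact_mod_cast hn2)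
  have h0 : 0 ≤ Real.log (M n) := Real.log_natCast_nonneg _
  have h1 : Real.log (M n) ≤ ε / 2 * √(n : ℝ) := by
    rcases Nat.eq_zero_or_pos (M n) with h | h
    · rw [h]; simp; positivity
    · rw [Real.log_le_iff_le_exp (by exact_mod_cast h)]; exact hN n hn1
  rw [Real.dist_eq, sub_zero, abs_of_nonneg (by positivity), div_lt_iff₀ hs]
  nlinarith

end Pool.Agent.Results.MP_155ab0_nt.LimitZero
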